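import Pool.Agent.MP_d7dd47_co.Mg.H40_Order

namespace Pool.Agent.Results.MP_d7dd47_co.FurediOrder

open Pool.Agent.MP_d7dd47_co

theorem result : ∀ n : ℕ, 3 ≤ n → ∃ B : ℝ, ∀ r : ℕ, n + 1 ≤ r →
    |Real.log (Real.log (ESNumber r n : ℝ)) - Real.log (r : ℝ) / ((n : ℝ) - 1)| ≤
      B * Real.log (Real.log (r : ℝ)) := by
  intro n hn
  obtain ⟨B, h⟩ := H40.es_order n (by omega)
  exact ⟨B, fun r hr => h r (by omega)⟩

end Pool.Agent.Results.MP_d7dd47_co.FurediOrder
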