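import Pool.Agent.MP_d7dd47_co.Mg.H62_Main

namespace Pool.Agent.Results.MP_d7dd47_co.FurediUpper

open Pool.Agent.MP_d7dd47_co

theorem result : ∀ j : ℕ, 3 ≤ j → ∃ (A : ℝ) (B : ℕ), ∀ n r : ℕ, j ≤ n →
    ∀ X : Set (EuclideanSpace ℝ (Fin n)), GenPos X →
      ((⌈(n : ℝ) * (2 : ℝ) ^ (A * ((⌈(r : ℚ) / (n : ℚ)⌉₊ : ℕ) : ℝ) ^ (1 / ((j : ℝ) - 1)) *
        Real.log (((⌈(r : ℚ) / (n : ℚ)⌉₊ : ℕ) : ℝ) + 2) ^ B)⌉₊ : ℕ) : ℕ∞) ≤ X.encard →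
      ∃ Y ⊆ X, Y.encard = r ∧ ConvIndep Y := by
  intro j hj
  obtain ⟨A, B, h⟩ := H62.main_all j (by omega)
  refine ⟨A, B, fun n r hn => ?_⟩
  have hn' : (0 : ℚ) < n := by exact_mod_cast (by omega : 0 < n)
  have h1 := (div_le_iff₀ hn').1 (Nat.le_ceil ((r : ℚ) / (n : ℚ)))
  have h2 : r ≤ ⌈(r : ℚ) / (n : ℚ)⌉₊ * n := by exact_mod_cast h1
  exact (h n _ hn).mono le_rfl h2

end Pool.Agent.Results.MP_d7dd47_co.FurediUpper
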