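import Pool.Agent.MP_d7dd47_co.Lower

namespace Pool.Agent.Results.MP_d7dd47_co.NineInFive

open Pool.Agent.MP_d7dd47_co

theorem result : ∃ X : Set (EuclideanSpace ℝ (Fin 5)), X.encard = 12 ∧ GenPos X ∧
    ¬ ∃ Y ⊆ X, Y.encard = 9 ∧ ConvIndep Y := by
  refine ⟨Low.X0, ?_, genPos_of_gp Low.gp_X0, ?_⟩
  · rw [Set.encard_coe_eq_coe_finsetCard, Low.card_X0]; rfl
  · rintro ⟨Y, hY, hc, hconv⟩
    have hfin : Y.Finite := Low.X0.finite_toSet.subset hY
    lift Y to Finset (EuclideanSpace ℝ (Fin 5)) using hfin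
    rw [Set.encard_coe_eq_coe_finsetCard] at hc
    exact Low.no_nine (by exact_mod_cast hY) (by exact_mod_cast hc) hconv

end Pool.Agent.Results.MP_d7dd47_co.NineInFive
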