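import Pool.Agent.MP_d7dd47_co.Upper

namespace Pool.Agent.Results.MP_d7dd47_co.UpperLinear

open Pool.Agent.MP_d7dd47_co

theorem result (n r : ℕ) (hr : n + 2 ≤ r) (hr' : r ≤ 2 * n)
    (X : Set (EuclideanSpace ℝ (Fin n))) (hX : GenPos X)
    (hc : ((n + 1 + (r - n - 1) * ⌈(n : ℚ) / (2 * (n : ℚ) + 1 - (r : ℚ))⌉₊ : ℕ) : ℕ∞) ≤ X.encard) :
    ∃ Y ⊆ X, Y.encard = r ∧ ConvIndep Y := by
  obtain ⟨t, rfl⟩ : ∃ t, r = n + 1 + t := ⟨r - n - 1, by omega⟩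
  obtain ⟨S, hS, hSc⟩ := Set.exists_subset_encard_eq hc
  have hfin : S.Finite := Set.finite_of_encard_eq_coe hSc
  lift S to Finset (EuclideanSpace ℝ (Fin n)) using hfin
  rw [Set.encard_coe_eq_coe_finsetCard] at hSc
  have hSc' := ENat.natCast_inj.1 hSc
  have e : n + 1 + t - n - 1 = t := by omega
  rw [e] at hSc'
  have htn : t < n := by omega
  have hpos : (0 : ℚ) < 2 * (n : ℚ) + 1 - ((n + 1 + t : ℕ) : ℚ) := by
    have : (t : ℚ) < n := by exact_mod_cast htn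
    push_cast; linarith
  have hk := (div_le_iff₀ hpos).1 (Nat.le_ceil ((n : ℚ) / (2 * (n : ℚ) + 1 - ((n + 1 + t : ℕ) : ℚ))))
  set k := ⌈(n : ℚ) / (2 * (n : ℚ) + 1 - ((n + 1 + t : ℕ) : ℚ))⌉₊ with hkdef
  have hk' : n + k * t ≤ k * n := by
    have : (n : ℚ) + k * t ≤ k * n := by
      push_cast at hk; linarith
    exact_mod_cast this
  obtain ⟨Y, hY, hYc, hconv⟩ := upper_finset t k htn hk' S (gp_of_genPos hX hS) hSc'.ge
  refine ⟨Y, (Finset.coe_subset.2 hY).trans hS, ?_, hconv⟩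
  rw [Set.encard_coe_eq_coe_finsetCard, hYc]

end Pool.Agent.Results.MP_d7dd47_co.UpperLinear
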